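import Pool.Agent.N597.NR.Final
set_option autoImplicit false

/-!
# Nonrepetitive colourings with `O(Δ ^ 2)` colours in randomised polynomial time

The algorithm is the resampling algorithm of Moser and Tardos with `2 ^ b ≤ 256 Δ ^ 2` colours: as long
as a repetitively coloured path is found, all its vertices get new random colours. The search for
repetitively coloured paths enumerates all pairs of disjoint paths `(u₁ … u_i, w₁ … w_i)` with
`c u_j = c w_j` for all `j`, for `i = 1, 2, …`, and gives up (finding nothing) when there are more than
`n ^ 3` of them. Such a pair of paths is extended in at most `Δ ^ 2` ways, and an extension has equal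
colours with probability `2 ^ (-b) ≤ 1 / (64 Δ ^ 2)`; so at the end of the algorithm the expected number
of these pairs is small (this is where the distribution of the output of the resampling algorithm is
estimated), the search does not give up except with probability `1 / (2 n)`, and then it is complete
for paths of all lengths. The number of rounds is at most `n (2 n + 1)` except with
probability `1 / (2 n)`.
-/

namespace Pool.Agent.Results.MP_0272f9_lc.MonteCarloDeltaSquared

open Pool.Agent.NPC Pool.Agent.NPC.R671 Pool.Agent.N597.NR

open Classical in
/-- There are a constant `C` and a polynomial time Monte Carlo algorithm which, given a graph with `n`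
vertices and maximum degree `Δ`, outputs with probability at least `1 - 1 / n` a nonrepetitive
colouring with at most `C (max 1 Δ) ^ 2` colours. The algorithm is a function `F` on bit strings, computed
by a Turing machine in polynomial time, whose input is the code of the adjacency matrix of the graph
together with `q(n)` independent uniformly random bits, for a fixed polynomial `q`. -/
theorem result : ∃ (C : ℕ) (F : List Bool → List Bool) (q : Polynomial ℕ), PolyTime F ∧
    ∀ (n : ℕ), 1 ≤ n → ∀ G : SimpleGraph (Fin n),
      (1 : ℝ) - 1 / n ≤ (Nat.card {r : Fin (q.eval n) → Bool // ∃ c : Fin n → ℕ,
        F (bits (adjMatrix G, List.ofFn r)) = bits (List.ofFn c) ∧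
        (∀ v, c v < C * (max 1 G.maxDegree) ^ 2) ∧ Nonrepetitive G c} : ℝ) / 2 ^ (q.eval n) :=
  monteCarlo

end Pool.Agent.Results.MP_0272f9_lc.MonteCarloDeltaSquared
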